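import Mathlib
import Pool.Agent.W601.RP.Stm2

/-!
# Extraction of a subsequence with pairwise incompatible prefixes
-/

set_option autoImplicit false

namespace Pool.Agent.W287.RP

open Filter Pool.Agent.W601.RP

theorem pre_eq_iff (q q' : ℕ → ℕ) (n : ℕ) : pre q n = pre q' n ↔ ∀ i, i < n → q i = q' i := by
  unfold pre
  rw [List.map_inj_left]
  simp

theorem ext : S_EXT := by
  intro p hp hM b
  have hv : ∀ i, ∃ v, ∀ᶠ m in (hyperfilter ℕ : Filter ℕ), p m i = v := by
    intro i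
    have h1 : ∀ᶠ m in (hyperfilter ℕ : Filter ℕ), ∃ a ∈ Set.Iio (M i), p m i = a :=
      Eventually.of_forall (fun m => ⟨p m i, hM m i, rfl⟩)
    rw [Ultrafilter.eventually_exists_mem_iff (Set.finite_Iio (M i))] at h1
    obtain ⟨v, -, hv⟩ := h1
    exact ⟨v, hv⟩
  choose ps hps using hv
  have hbig : ∀ K : ℕ, ∀ᶠ m in (hyperfilter ℕ : Filter ℕ), K < m := fun K =>
    Nat.hyperfilter_le_atTop (eventually_gt_atTop K)
  have hne : ∀ᶠ m in (hyperfilter ℕ : Filter ℕ), p m ≠ ps := by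
    by_cases h : ∃ m0, p m0 = ps
    · obtain ⟨m0, hm0⟩ := h
      filter_upwards [hbig m0] with m hm he
      exact (ne_of_gt hm) (hp (he.trans hm0.symm))
    · push Not at h
      exact Eventually.of_forall h
  have hstep : ∀ s : ℕ × ℕ, ∃ s' : ℕ × ℕ, (b s'.1 ≤ s'.2 ∧ pre (p s'.1) s'.2 ≠ pre ps s'.2) ∧
      s.1 < s'.1 ∧ s.2 < s'.2 ∧ pre (p s'.1) s.2 = pre ps s.2 := by
    intro s
    have h1 : ∀ᶠ m in (hyperfilter ℕ : Filter ℕ), ∀ i ∈ Finset.range s.2, p m i = ps i := by
      rw [Filter.eventually_all_finset]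
      intro i _
      exact hps i
    obtain ⟨m, hm1, hm2, hm3⟩ := (h1.and ((hbig s.1).and hne)).exists
    have h2 : ∃ i, p m i ≠ ps i := by
      by_contra hcon
      push Not at hcon
      exact hm3 (funext hcon)
    obtain ⟨i, hi⟩ := h2
    refine ⟨(m, max (s.2 + 1) (max (b m) (i + 1))), ⟨?_, ?_⟩, hm2, ?_, ?_⟩
    · exact le_trans (le_max_left _ _) (le_max_right _ _)
    · intro he
      rw [pre_eq_iff] at he
      exact hi (he i (lt_of_lt_of_le (Nat.lt_succ_self i)
        (le_trans (le_max_right _ _) (le_max_right _ _))))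
    · exact lt_of_lt_of_le (Nat.lt_succ_self _) (le_max_left _ _)
    · rw [pre_eq_iff]
      intro j hj
      exact hm1 j (Finset.mem_range.2 hj)
  choose F hF1 hF2 hF3 hF4 using hstep
  let s : ℕ → ℕ × ℕ := fun k => Nat.rec (F (0, 0)) (fun _ t => F t) k
  have hs : ∀ k, s (k + 1) = F (s k) := fun k => rfl
  have hg : ∀ k, b (s k).1 ≤ (s k).2 ∧ pre (p (s k).1) (s k).2 ≠ pre ps (s k).2 := by
    intro k
    cases k with
    | zero => exact hF1 (0, 0)
    | succ k => rw [hs]; exact hF1 (s k)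
  have hm : StrictMono (fun k => (s k).1) := strictMono_nat_of_lt_succ (fun k => by
    simp only [hs]; exact hF2 (s k))
  have hn : StrictMono (fun k => (s k).2) := strictMono_nat_of_lt_succ (fun k => by
    simp only [hs]; exact hF3 (s k))
  refine ⟨fun k => (s k).1, fun k => (s k).2, hm, hn, fun k => (hg k).1, ?_⟩
  intro k k' hk
  obtain ⟨j, rfl⟩ : ∃ j, k' = j + 1 := ⟨k' - 1, by omega⟩
  have h3 := hF4 (s j)
  rw [← hs] at h3
  have h4 : (s k).2 ≤ (s j).2 := hn.monotone (by omega)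
  have h5 : pre (p (s (j + 1)).1) (s k).2 = pre ps (s k).2 := by
    rw [pre_eq_iff] at h3 ⊢
    intro i hi
    exact h3 i (by omega)
  intro h6
  exact (hg k).2 (h6.symm.trans h5)

end Pool.Agent.W287.RP
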